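import Mathlib

set_option autoImplicit false

namespace Pool.Agent.Results.MP_943595_co.HermitianOmega

open Finset Matrix

/-! ### Regular subdivisions and valuated Delta-matroids -/

/-- The vertex `e_S` of the unit cube. -/
def vertex {n : ℕ} (S : Finset (Fin n)) : Fin n → ℝ := fun i => if i ∈ S then 1 else 0

/-- The lifted points `(e_S, p(e_S))` with `p(e_S) ≠ ∞`. -/
def lifted {n : ℕ} (p : Finset (Fin n) → WithTop ℝ) : Set ((Fin n → ℝ) × ℝ) :=
  {x | ∃ S : Finset (Fin n), x.1 = vertex S ∧ p S = (x.2 : WithTop ℝ)}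

/-- `Q` is a cell of the regular subdivision induced by `p`: the projection to `ℝ^n` of a lower
face of the convex hull of the lifted points, that is, of the set of points at which some linear
functional `(x, t) ↦ ∑ i, u i * x i + t` (positive last coefficient) attains its minimum over
this convex hull. -/
def IsCell {n : ℕ} (p : Finset (Fin n) → WithTop ℝ) (Q : Set (Fin n → ℝ)) : Prop :=
  ∃ u : Fin n → ℝ, Q = Prod.fst '' {x | x ∈ convexHull ℝ (lifted p) ∧
    ∀ y ∈ convexHull ℝ (lifted p), (∑ i, u i * x.1 i) + x.2 ≤ (∑ i, u i * y.1 i) + y.2}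

/-- Every edge (one-dimensional cell) of the regular subdivision induced by `p` is parallel to
`e_i` or to `e_i + e_j` or to `e_i - e_j` for some `i ≠ j`. -/
def IsValuatedDeltaMatroid {n : ℕ} (p : Finset (Fin n) → WithTop ℝ) : Prop :=
  ∀ Q : Set (Fin n → ℝ), IsCell p Q → Module.finrank ℝ (vectorSpan ℝ Q) = 1 →
    (∃ i : Fin n, vectorSpan ℝ Q = Submodule.span ℝ {vertex {i}}) ∨
    (∃ i j : Fin n, i ≠ j ∧
      (vectorSpan ℝ Q = Submodule.span ℝ {vertex {i} + vertex {j}} ∨
        vectorSpan ℝ Q = Submodule.span ℝ {vertex {i} - vertex {j}}))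

/-! ### Valuation lemmas -/

section valuation

theorem add_lt' {a c : ℝ} {b d : WithTop ℝ} (h1 : (a : WithTop ℝ) < b) (h2 : (c : WithTop ℝ) < d) :
    ((a + c : ℝ) : WithTop ℝ) < b + d := by
  induction b using WithTop.recTopCoe with
  | top => simp
  | coe b =>
    induction d using WithTop.recTopCoe with
    | top => simp
    | coe d =>
      rw [← WithTop.coe_add]
      rw [WithTop.coe_lt_coe] at h1 h2 ⊢
      linarith

variable {K : Type*} [Field K] (ν : AddValuation K (WithTop ℝ))

theorem prod_lt {ι : Type*} (s : Finset ι) (hs : s.Nonempty) (f : ι → K) (g : ι → ℝ)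
    (h : ∀ i ∈ s, ((g i : ℝ) : WithTop ℝ) < ν (f i)) :
    ((∑ i ∈ s, g i : ℝ) : WithTop ℝ) < ν (∏ i ∈ s, f i) := by
  classical
  induction hs using Finset.Nonempty.cons_induction with
  | singleton a => simpa using h a (by simp)
  | cons a s ha hs ih =>
    rw [Finset.sum_cons, Finset.prod_cons, ν.map_mul]
    exact add_lt' (h a (by simp)) (ih fun i hi => h i (by simp [hi]))

theorem core {ι : Type*} [Fintype ι] [DecidableEq ι] [Nonempty ι] (σ : K ≃+* K)
    (hν : ∀ a, ν (σ a) = ν a) (A C : Matrix ι ι K) (hAC : ∀ i j, C i j = A i j + σ (A j i))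
    (hC : ∀ i j, C i j * σ (C i j) = C i i * C j j) (w : ι → ℝ)
    (h1 : ∀ i, ((w i : ℝ) : WithTop ℝ) < ν (A i i))
    (h2 : ∀ i j, i ≠ j → ((w i + w j : ℝ) : WithTop ℝ) < ν (A i i * A j j - A i j * A j i)) :
    ((∑ i, w i : ℝ) : WithTop ℝ) < ν A.det := by
  -- the diagonal of `C`
  have hCd : ∀ i, ((w i : ℝ) : WithTop ℝ) < ν (C i i) := by
    intro i
    rw [hAC]
    exact ν.map_lt_add (h1 i) (by rw [hν]; exact h1 i)
  -- all entries of `C`
  have hCe : ∀ i j, ((((w i + w j) / 2 : ℝ)) : WithTop ℝ) < ν (C i j) := by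
    intro i j
    have h := add_lt' (hCd i) (hCd j)
    rw [← ν.map_mul, ← hC, ν.map_mul, hν] at h
    by_contra hlt
    rw [not_lt] at hlt
    have h3 : ν (C i j) + ν (C i j) ≤ ((((w i + w j) / 2 : ℝ)) : WithTop ℝ) +
        ((((w i + w j) / 2 : ℝ)) : WithTop ℝ) := add_le_add hlt hlt
    rw [← WithTop.coe_add, add_halves] at h3
    exact absurd h (not_lt.2 h3)
  -- all entries of `A`
  have hAe : ∀ i j, ((((w i + w j) / 2 : ℝ)) : WithTop ℝ) < ν (A i j) := by
    intro i j
    by_cases hij : i = j
    · subst hij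
      simpa using h1 i
    by_contra hlt
    rw [not_lt] at hlt
    have h4 : ν (A j i) = ν (A i j) := by
      have e1 : σ (A j i) = C i j + (- A i j) := by rw [hAC i j]; ring
      have e2 : ν (- A i j) < ν (C i j) := by
        rw [ν.map_neg]
        exact lt_of_le_of_lt hlt (hCe i j)
      rw [← hν (A j i), e1, ν.map_add_eq_of_lt_right e2, ν.map_neg]
    have h5 : ((w i + w j : ℝ) : WithTop ℝ) < ν (A i j * A j i) := by
      have e3 : A i j * A j i = A i i * A j j + (-(A i i * A j j - A i j * A j i)) := by ring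
      rw [e3]
      refine ν.map_lt_add ?_ ?_
      · rw [ν.map_mul]; exact add_lt' (h1 i) (h1 j)
      · rw [ν.map_neg]; exact h2 i j hij
    rw [ν.map_mul, h4] at h5
    have h6 : ν (A i j) + ν (A i j) ≤ ((((w i + w j) / 2 : ℝ)) : WithTop ℝ) +
        ((((w i + w j) / 2 : ℝ)) : WithTop ℝ) := add_le_add hlt hlt
    rw [← WithTop.coe_add, add_halves] at h6
    exact absurd h5 (not_lt.2 h6)
  -- the determinant
  rw [Matrix.det_apply]
  refine ν.map_lt_sum (WithTop.coe_ne_top) ?_
  intro τ _
  have hsum : ∑ i, w i = ∑ i, (w (τ i) + w i) / 2 := by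
    rw [← Finset.sum_div, Finset.sum_add_distrib, Equiv.sum_comp τ w]
    ring
  have hprod : ((∑ i, w i : ℝ) : WithTop ℝ) < ν (∏ i, A (τ i) i) := by
    rw [hsum]
    exact prod_lt ν univ Finset.univ_nonempty _ _ fun i _ => hAe (τ i) i
  rcases Int.units_eq_one_or (Equiv.Perm.sign τ) with h | h
  · rw [h]; simpa using hprod
  · rw [h]; simpa [ν.map_neg] using hprod

end valuation

/-! ### Principal pivoting -/

section pivot

variable {K : Type*} [Field K] {ι : Type*} [Fintype ι] [DecidableEq ι]

/-- Replace the columns of the identity matrix indexed by `S` by those of `A`. -/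
def mix (A : Matrix ι ι K) (S : Finset ι) : Matrix ι ι K :=
  Matrix.of fun i j => if j ∈ S then A i j else (1 : Matrix ι ι K) i j

theorem det_mix (A : Matrix ι ι K) (S : Finset ι) :
    (mix A S).det = (A.submatrix ((↑) : S → ι) (↑)).det := by
  rw [Matrix.twoBlockTriangular_det' (mix A S) (fun i => i ∈ S)]
  · have h1 : Matrix.toSquareBlockProp (mix A S) (fun i => i ∈ S)
        = A.submatrix ((↑) : S → ι) (↑) := by
      ext i j
      simp [Matrix.toSquareBlockProp, mix]
    have h2 : Matrix.toSquareBlockProp (mix A S) (fun i => ¬ i ∈ S) = 1 := by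
      ext i j
      have hj : (j : ι) ∉ S := j.2
      change (if (j : ι) ∈ S then A i j else (1 : Matrix ι ι K) i j) = _
      rw [if_neg hj, Matrix.one_apply, Matrix.one_apply]
      simp only [Subtype.ext_iff]
    rw [h1, h2, Matrix.det_one, mul_one]
    rw [Subsingleton.elim (Subtype.fintype fun i => i ∈ S) (Finset.fintypeCoeSort S)]
  · intro i hi j hj
    have hne : i ≠ j := by rintro rfl; exact hj hi
    simp [mix, hj, Matrix.one_apply_ne hne]

theorem det_single (A : Matrix ι ι K) (i : ι) :
    (A.submatrix ((↑) : ({i} : Finset ι) → ι) (↑)).det = A i i := by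
  have : Unique ({i} : Finset ι) :=
    ⟨⟨⟨i, by simp⟩⟩, fun x => Subtype.ext (Finset.mem_singleton.1 x.2)⟩
  rw [Matrix.det_unique]
  have : ((default : ({i} : Finset ι)) : ι) = i := Finset.mem_singleton.1 (default : ({i} : Finset ι)).2
  simp [Matrix.submatrix_apply, this]

theorem det_pair (A : Matrix ι ι K) {i j : ι} (hij : i ≠ j) :
    (A.submatrix ((↑) : ({i, j} : Finset ι) → ι) (↑)).det = A i i * A j j - A i j * A j i := by
  let f : Fin 2 → ({i, j} : Finset ι) := ![⟨i, by simp⟩, ⟨j, by simp⟩]
  have hf : Function.Bijective f := by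
    constructor
    · intro a b hab
      fin_cases a <;> fin_cases b <;> simp [f] at hab ⊢
      · exact hij hab
      · exact hij hab.symm
    · rintro ⟨x, hx⟩
      rcases Finset.mem_insert.1 hx with rfl | hx
      · exact ⟨0, by simp [f]⟩
      · rw [Finset.mem_singleton] at hx
        subst hx
        exact ⟨1, by simp [f]⟩
  rw [← Matrix.det_submatrix_equiv_self (Equiv.ofBijective f hf), Matrix.det_fin_two]
  simp [f]

variable (σ : K ≃+* K)

/-- Conjugate transpose with respect to `σ`. -/
def st (X : Matrix ι ι K) : Matrix ι ι K := (X.map σ)ᵀ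

theorem st_apply (X : Matrix ι ι K) (i j : ι) : st σ X i j = σ (X j i) := rfl

theorem st_mul (X Y : Matrix ι ι K) : st σ (X * Y) = st σ Y * st σ X := by
  ext i j
  simp [st_apply, Matrix.mul_apply, map_sum, mul_comm]

theorem st_one : st σ (1 : Matrix ι ι K) = 1 := by
  ext i j
  rw [st_apply]
  by_cases h : j = i
  · subst h; simp
  · rw [Matrix.one_apply_ne h, Matrix.one_apply_ne (Ne.symm h), map_zero]

/-- Existence of the principal pivot transform at a nonsingular principal submatrix. -/
theorem exists_pivot (A : Matrix ι ι K) (a b : ι → K)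
    (hC : ∀ i j, A i j + σ (A j i) = a i * b j) (S : Finset ι) (hS : (mix A S).det ≠ 0) :
    ∃ (g : K) (Q : Matrix ι ι K) (a' b' : ι → K), g * (mix A S).det = 1 ∧
      (∀ i j, Q i j + σ (Q j i) = a' i * b' j) ∧
      ∀ U : Finset ι, (mix Q U).det = g * (mix A (symmDiff S U)).det := by
  classical
  set M1 := mix A S with hM1
  set M2 : Matrix ι ι K := Matrix.of fun i j => if j ∈ S then (1 : Matrix ι ι K) i j else A i j
    with hM2
  have hu : IsUnit M1.det := isUnit_iff_ne_zero.2 hS
  have hGM : M1⁻¹ * M1 = 1 := Matrix.nonsing_inv_mul _ hu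
  have hsym : M1 * st σ M2 + M2 * st σ M1 = Matrix.of fun i j => a i * b j := by
    ext i j
    rw [Matrix.add_apply, Matrix.mul_apply, Matrix.mul_apply, ← Finset.sum_add_distrib]
    have : ∀ k, M1 i k * st σ M2 k j + M2 i k * st σ M1 k j
        = A i k * σ ((1 : Matrix ι ι K) j k) + (1 : Matrix ι ι K) i k * σ (A j k) := by
      intro k
      simp only [st_apply, hM1, hM2, mix, Matrix.of_apply]
      by_cases hk : k ∈ S
      · simp [hk]
      · simp [hk]; ring
    rw [Finset.sum_congr rfl fun k _ => this k, Finset.sum_add_distrib]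
    have e1 : ∑ k, A i k * σ ((1 : Matrix ι ι K) j k) = A i j := by
      rw [Finset.sum_eq_single j]
      · simp
      · intro k _ hk
        rw [Matrix.one_apply_ne (Ne.symm hk)]; simp
      · simp
    have e2 : ∑ k, (1 : Matrix ι ι K) i k * σ (A j k) = σ (A j i) := by
      rw [Finset.sum_eq_single i]
      · simp
      · intro k _ hk
        rw [Matrix.one_apply_ne (Ne.symm hk)]; simp
      · simp
    rw [e1, e2, hC, Matrix.of_apply]
  refine ⟨(M1⁻¹).det, M1⁻¹ * M2, fun i => ∑ k, M1⁻¹ i k * a k,
    fun j => ∑ l, b l * σ (M1⁻¹ j l), ?_, ?_, ?_⟩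
  · rw [← Matrix.det_mul, hGM, Matrix.det_one]
  · have h1 : (M1⁻¹ * M2) + st σ (M1⁻¹ * M2)
        = M1⁻¹ * (Matrix.of fun i j => a i * b j) * st σ M1⁻¹ := by
      have hs : st σ M1 * st σ M1⁻¹ = 1 := by rw [← st_mul, hGM, st_one]
      rw [← hsym, st_mul, Matrix.mul_add, Matrix.add_mul]
      have t1 : M1⁻¹ * (M1 * st σ M2) * st σ M1⁻¹ = st σ M2 * st σ M1⁻¹ := by
        rw [← Matrix.mul_assoc, hGM, Matrix.one_mul]
      have t2 : M1⁻¹ * (M2 * st σ M1) * st σ M1⁻¹ = M1⁻¹ * M2 := by
        rw [Matrix.mul_assoc, Matrix.mul_assoc, hs, Matrix.mul_one]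
      rw [t1, t2, add_comm]
    intro i j
    have h2 := congrFun (congrFun h1 i) j
    rw [Matrix.add_apply, st_apply] at h2
    rw [h2, Matrix.mul_apply, Finset.sum_mul_sum]
    rw [Finset.sum_comm]
    refine Finset.sum_congr rfl fun l _ => ?_
    rw [Matrix.mul_apply, Finset.sum_mul]
    refine Finset.sum_congr rfl fun k _ => ?_
    rw [Matrix.of_apply, st_apply]
    ring
  · intro U
    rw [← Matrix.det_mul]
    congr 1
    ext i j
    rw [Matrix.mul_apply]
    by_cases hj : j ∈ U
    · simp only [mix, Matrix.of_apply, hj, if_true]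
      rw [Matrix.mul_apply]
      refine Finset.sum_congr rfl fun k _ => ?_
      congr 1
      simp only [hM2, Matrix.of_apply, Finset.mem_symmDiff, hj, not_true, and_false, false_or,
        true_and]
      by_cases hjS : j ∈ S <;> simp [hjS]
    · simp only [mix, Matrix.of_apply, hj, if_false]
      have h3 := congrFun (congrFun hGM i) j
      rw [Matrix.mul_apply] at h3
      rw [← h3]
      refine Finset.sum_congr rfl fun k _ => ?_
      congr 1
      simp only [hM1, mix, Matrix.of_apply, Finset.mem_symmDiff, hj, not_false_iff, and_true,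
        false_and, or_false]

end pivot

/-! ### The algebraic heart: an edge joins sets at distance at most two -/

theorem main_alg {K : Type*} [Field K] (ν : AddValuation K (WithTop ℝ)) (σ : K ≃+* K)
    (hσ : ∀ a, σ (σ a) = a) (hν : ∀ a, ν (σ a) = ν a) {ι : Type*} [Fintype ι] [DecidableEq ι]
    (A : Matrix ι ι K) (a b : ι → K) (hC : ∀ i j, A i j + σ (A j i) = a i * b j)
    (u : ι → ℝ) (m : ℝ) (S T : Finset ι)
    (hS : ν (mix A S).det = ((m - ∑ i ∈ S, u i : ℝ) : WithTop ℝ))
    (hT : ν (mix A T).det = ((m - ∑ i ∈ T, u i : ℝ) : WithTop ℝ))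
    (hlt : ∀ W, W ≠ S → W ≠ T → ((m - ∑ i ∈ W, u i : ℝ) : WithTop ℝ) < ν (mix A W).det) :
    (symmDiff S T).card ≤ 2 := by
  classical
  by_contra hcard
  rw [not_le] at hcard
  set D := symmDiff S T with hD
  have hS0 : (mix A S).det ≠ 0 := by
    intro h
    rw [h, ν.map_zero] at hS
    exact WithTop.top_ne_coe hS
  obtain ⟨g, Q, a', b', hg, hQC, hQ⟩ := exists_pivot σ A a b hC S hS0
  -- valuation of `g`
  have hgν : ν g = ((-(m - ∑ i ∈ S, u i) : ℝ) : WithTop ℝ) := by
    have h1 : ν g + ν (mix A S).det = 0 := by rw [← ν.map_mul, hg, ν.map_one]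
    rw [hS] at h1
    have hgt : ν g ≠ ⊤ := by
      intro h; rw [h] at h1; simp at h1
    obtain ⟨r, hr⟩ := WithTop.ne_top_iff_exists.1 hgt
    rw [← hr] at h1 ⊢
    have h2 : r + (m - ∑ i ∈ S, u i) = 0 := by exact_mod_cast h1
    congr 1
    linarith
  let w : ι → ℝ := fun i => if i ∈ S then u i else - u i
  have hw : ∀ U : Finset ι, ∑ i ∈ symmDiff S U, u i = ∑ i ∈ S, u i - ∑ i ∈ U, w i := by
    intro U
    have conv : ∀ (X : Finset ι) (f : ι → ℝ), ∑ i ∈ X, f i = ∑ i, if i ∈ X then f i else 0 := by
      intro X f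
      rw [Finset.sum_ite_mem, Finset.univ_inter]
    rw [conv (symmDiff S U), conv S, conv U, ← Finset.sum_sub_distrib]
    refine Finset.sum_congr rfl fun i _ => ?_
    by_cases h1 : i ∈ S <;> by_cases h2 : i ∈ U <;>
      simp [Finset.mem_symmDiff, h1, h2, w]
  -- strict inequality for proper nonempty subsets of `D`
  have hstrict : ∀ U : Finset ι, U.Nonempty → U ≠ D →
      ((∑ i ∈ U, w i : ℝ) : WithTop ℝ) < ν (mix Q U).det := by
    intro U hU hUD
    rw [hQ U, ν.map_mul, hgν]
    have h1 : symmDiff S U ≠ S := by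
      intro h
      have : U = ∅ := by
        have := congrArg (symmDiff S) h
        rw [symmDiff_symmDiff_cancel_left, symmDiff_self] at this
        exact this
      exact hU.ne_empty this
    have h2 : symmDiff S U ≠ T := by
      intro h
      apply hUD
      rw [hD, ← h, symmDiff_symmDiff_cancel_left]
    have h3 := hlt (symmDiff S U) h1 h2
    rw [hw U] at h3
    by_cases htop : ν (mix A (symmDiff S U)).det = ⊤
    · rw [htop, WithTop.add_top]
      exact WithTop.coe_lt_top _
    · obtain ⟨r, hr⟩ := WithTop.ne_top_iff_exists.1 htop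
      rw [← hr] at h3 ⊢
      rw [← WithTop.coe_add, WithTop.coe_lt_coe]
      rw [WithTop.coe_lt_coe] at h3
      linarith
  -- equality for `D`
  have heq : ν (mix Q D).det = ((∑ i ∈ D, w i : ℝ) : WithTop ℝ) := by
    have h1 : symmDiff S D = T := by rw [hD, symmDiff_symmDiff_cancel_left]
    rw [hQ D, ν.map_mul, hgν, h1, hT, ← WithTop.coe_add]
    congr 1
    have h2 := hw D
    rw [h1] at h2
    linarith
  -- apply the core lemma to the principal submatrix on `D`
  have hne : Nonempty D := by
    have : D.Nonempty := Finset.card_pos.1 (by omega)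
    exact this.to_subtype
  have key := core ν σ hν (Q.submatrix ((↑) : D → ι) (↑))
    (Matrix.of fun i j => Q i j + σ (Q j i)) (fun i j => rfl) (fun i j => by
      simp only [Matrix.of_apply]
      have e1 : σ (Q i j + σ (Q j i)) = Q j i + σ (Q i j) := by
        rw [map_add, hσ, add_comm]
      rw [e1, hQC, hQC, hQC, hQC]; ring) (fun i => w i) (fun i => by
      have h1 := hstrict {(i : ι)} (by simp) (by
        intro h; rw [← h] at hcard; simp at hcard)
      rw [det_mix, det_single] at h1
      simpa using h1) (fun i j hij => by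
      have hij' : (i : ι) ≠ j := fun h => hij (Subtype.ext h)
      have h1 := hstrict {(i : ι), (j : ι)} (by simp) (by
        intro h; rw [← h, Finset.card_pair hij'] at hcard; omega)
      rw [det_mix, det_pair _ hij', Finset.sum_pair hij'] at h1
      simpa using h1)
  rw [← det_mix, heq, Finset.sum_coe_sort D w] at key
  exact lt_irrefl _ key

/-! ### The geometry of edges -/

section geometry

variable {n : ℕ}

theorem vertex_injective : Function.Injective (vertex (n := n)) := by
  intro S T h
  ext i
  have := congrFun h i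
  by_cases h1 : i ∈ S <;> by_cases h2 : i ∈ T <;> simp [vertex, h1, h2] at this ⊢

theorem sum_vertex (u : Fin n → ℝ) (W : Finset (Fin n)) :
    ∑ i, u i * vertex W i = ∑ i ∈ W, u i := by
  simp [vertex]

theorem isLinearMap_ell (u : Fin n → ℝ) :
    IsLinearMap ℝ (fun x : (Fin n → ℝ) × ℝ => (∑ i, u i * x.1 i) + x.2) := by
  constructor
  · intro x y
    simp only [Prod.fst_add, Prod.snd_add, Pi.add_apply, mul_add, Finset.sum_add_distrib]
    ring
  · intro c x
    simp only [Prod.smul_fst, Prod.smul_snd, Pi.smul_apply, smul_eq_mul, mul_add, Finset.mul_sum]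
    congr 1
    exact Finset.sum_congr rfl fun i _ => by ring

theorem geom (p : Finset (Fin n) → WithTop ℝ) (Q : Set (Fin n → ℝ)) (hQ : IsCell p Q)
    (h1 : Module.finrank ℝ (vectorSpan ℝ Q) = 1) :
    ∃ (u : Fin n → ℝ) (m : ℝ) (S T : Finset (Fin n)), S ≠ T ∧
      p S = ((m - ∑ i ∈ S, u i : ℝ) : WithTop ℝ) ∧
      p T = ((m - ∑ i ∈ T, u i : ℝ) : WithTop ℝ) ∧
      (∀ W, W ≠ S → W ≠ T → ((m - ∑ i ∈ W, u i : ℝ) : WithTop ℝ) < p W) ∧
      vectorSpan ℝ Q = Submodule.span ℝ {vertex T - vertex S} := by
  classical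
  obtain ⟨u, hQu⟩ := hQ
  set ell : (Fin n → ℝ) × ℝ → ℝ := fun x => (∑ i, u i * x.1 i) + x.2 with hell
  have hlin : IsLinearMap ℝ ell := isLinearMap_ell u
  set P := convexHull ℝ (lifted p) with hP
  set F : Set ((Fin n → ℝ) × ℝ) := {x | x ∈ P ∧ ∀ y ∈ P, ell x ≤ ell y} with hF
  have hQF : Q = Prod.fst '' F := hQu
  have hFne : F.Nonempty := by
    rw [Set.nonempty_iff_ne_empty]
    intro hempty
    rw [hQF, hempty, Set.image_empty, vectorSpan_empty, finrank_bot] at h1
    exact absurd h1 (by norm_num)
  obtain ⟨x0, hx0P, hx0⟩ := hFne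
  set m := ell x0 with hm
  have hpt : ∀ (W : Finset (Fin n)) (r : ℝ), p W = (r : WithTop ℝ) →
      ((vertex W, r) : (Fin n → ℝ) × ℝ) ∈ P := fun W r h =>
    subset_convexHull ℝ _ ⟨W, rfl, h⟩
  have hval : ∀ (W : Finset (Fin n)) (r : ℝ), ell (vertex W, r) = ∑ i ∈ W, u i + r := by
    intro W r
    simp only [hell, sum_vertex]
  have hge : ∀ (W : Finset (Fin n)) (r : ℝ), p W = (r : WithTop ℝ) → m ≤ ∑ i ∈ W, u i + r := by
    intro W r h
    rw [← hval]
    exact hx0 _ (hpt W r h)
  -- a minimiser exists
  have hA : ∃ S : Finset (Fin n), p S = ((m - ∑ i ∈ S, u i : ℝ) : WithTop ℝ) := by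
    by_contra hno
    push Not at hno
    have hsub : P ⊆ {x | m < ell x} := by
      refine convexHull_min ?_ (convex_halfSpace_gt hlin m)
      rintro ⟨x, r⟩ ⟨W, hW, hr⟩
      simp only at hW hr
      subst hW
      have h2 := hge W r hr
      rcases h2.lt_or_eq with h3 | h3
      · change m < ell (vertex W, r)
        rw [hval]; exact h3
      · exfalso
        apply hno W
        rw [hr]
        congr 1
        linarith
    have hlt : m < ell x0 := hsub hx0P
    exact lt_irrefl _ hlt
  obtain ⟨S, hS⟩ := hA
  set s0 : (Fin n → ℝ) × ℝ := (vertex S, m - ∑ i ∈ S, u i) with hs0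
  have hs0P : s0 ∈ P := hpt S _ hS
  have hs0m : ell s0 = m := by rw [hs0, hval]; ring
  have hB : ∃ T : Finset (Fin n), T ≠ S ∧ p T = ((m - ∑ i ∈ T, u i : ℝ) : WithTop ℝ) := by
    by_contra hno
    push Not at hno
    set L' : Set ((Fin n → ℝ) × ℝ) := {y | y ∈ lifted p ∧ m < ell y} with hL'
    have hLsub : lifted p ⊆ insert s0 L' := by
      rintro ⟨x, r⟩ ⟨W, hW, hr⟩
      simp only at hW hr
      subst hW
      by_cases hWS : W = S
      · subst hWS
        left
        rw [hs0]
        congr 1
        rw [hr] at hS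
        exact_mod_cast hS
      · right
        refine ⟨⟨W, rfl, hr⟩, ?_⟩
        have h2 := hge W r hr
        rcases h2.lt_or_eq with h3 | h3
        · rw [hval]; exact h3
        · exfalso
          apply hno W hWS
          rw [hr]
          congr 1
          linarith
    have hFs : F ⊆ {s0} := by
      rintro x ⟨hxP, hx⟩
      have hxm : ell x = m := le_antisymm (by rw [← hs0m]; exact hx _ hs0P) (hx0 _ hxP)
      have hxP' : x ∈ convexHull ℝ (insert s0 L') := convexHull_mono hLsub hxP
      rcases L'.eq_empty_or_nonempty with he | hne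
      · rw [he] at hxP'
        simpa using hxP'
      · rw [convexHull_insert hne, mem_convexJoin] at hxP'
        obtain ⟨a, ha, z, hz, hxz⟩ := hxP'
        rw [Set.mem_singleton_iff] at ha
        subst ha
        have hzm : m < ell z := by
          have : convexHull ℝ L' ⊆ {x | m < ell x} :=
            convexHull_min (fun y hy => hy.2) (convex_halfSpace_gt hlin m)
          exact this hz
        obtain ⟨α, β, hα, hβ, hαβ, rfl⟩ := hxz
        rw [hlin.map_add, hlin.map_smul, hlin.map_smul, hs0m, smul_eq_mul, smul_eq_mul] at hxm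
        have hβ0 : β * (ell z - m) = 0 := by
          have : α = 1 - β := by linarith
          rw [this] at hxm
          linarith
        have hβ' : β = 0 := by
          rcases mul_eq_zero.1 hβ0 with h | h
          · exact h
          · linarith
        have hα' : α = 1 := by linarith
        rw [hβ', hα']
        simp
    have hQs : Q ⊆ {vertex S} := by
      rw [hQF]
      rintro _ ⟨x, hx, rfl⟩
      have := hFs hx
      rw [Set.mem_singleton_iff] at this
      rw [this]
      rfl
    have hv : vectorSpan ℝ Q = ⊥ := by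
      rw [eq_bot_iff]
      refine (vectorSpan_mono ℝ hQs).trans ?_
      rw [vectorSpan_singleton]
    rw [hv, finrank_bot] at h1
    exact absurd h1 (by norm_num)
  obtain ⟨T, hTS, hT⟩ := hB
  -- any minimiser gives a point of `Q`
  have hmemQ : ∀ W : Finset (Fin n), p W = ((m - ∑ i ∈ W, u i : ℝ) : WithTop ℝ) →
      vertex W ∈ Q := by
    intro W hW
    rw [hQF]
    refine ⟨(vertex W, m - ∑ i ∈ W, u i), ⟨hpt W _ hW, ?_⟩, rfl⟩
    intro y hy
    rw [hval]
    have := hx0 y hy
    linarith
  have hd : vertex T - vertex S ∈ vectorSpan ℝ Q :=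
    vsub_mem_vectorSpan ℝ (hmemQ T hT) (hmemQ S hS)
  have hd0 : vertex T - vertex S ≠ 0 := by
    intro h
    exact hTS (vertex_injective (sub_eq_zero.1 h))
  have hspan : vectorSpan ℝ Q = Submodule.span ℝ {vertex T - vertex S} := by
    symm
    refine Submodule.eq_of_le_of_finrank_eq ?_ ?_
    · rw [Submodule.span_singleton_le_iff_mem]
      exact hd
    · rw [finrank_span_singleton hd0, h1]
  refine ⟨u, m, S, T, Ne.symm hTS, hS, hT, ?_, hspan⟩
  intro W hWS hWT
  by_cases htop : p W = ⊤
  · rw [htop]; exact WithTop.coe_lt_top _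
  · obtain ⟨r, hr⟩ := WithTop.ne_top_iff_exists.1 htop
    rw [← hr, WithTop.coe_lt_coe]
    have h2 := hge W r hr.symm
    rcases h2.lt_or_eq with h3 | h3
    · linarith
    · exfalso
      have hW : p W = ((m - ∑ i ∈ W, u i : ℝ) : WithTop ℝ) := by
        rw [← hr]; congr 1; linarith
      have hmem : vertex W - vertex S ∈ vectorSpan ℝ Q :=
        vsub_mem_vectorSpan ℝ (hmemQ W hW) (hmemQ S hS)
      rw [hspan, Submodule.mem_span_singleton] at hmem
      obtain ⟨t, ht⟩ := hmem
      have hex : ∃ i, ¬ (i ∈ T ↔ i ∈ S) := by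
        by_contra hall
        push Not at hall
        exact hTS (Finset.ext hall)
      obtain ⟨i, hi⟩ := hex
      have hti := congrFun ht i
      have ht01 : t = 0 ∨ t = 1 := by
        by_cases h4 : i ∈ T <;> by_cases h5 : i ∈ S <;> by_cases h6 : i ∈ W <;>
          simp [vertex, h4, h5, h6] at hti hi ⊢ <;> first | (left; linarith) | (right; linarith)
      rcases ht01 with rfl | rfl
      · apply hWS
        apply vertex_injective
        rw [zero_smul] at ht
        exact (sub_eq_zero.1 ht.symm)
      · apply hWT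
        apply vertex_injective
        rw [one_smul] at ht
        exact (sub_left_injective ht).symm

end geometry

/-! ### The theorem -/

theorem span_neg' {n : ℕ} (v : Fin n → ℝ) :
    Submodule.span ℝ {-v} = Submodule.span ℝ ({v} : Set (Fin n → ℝ)) := by
  rw [← Set.neg_singleton, Submodule.span_neg]

/-- If two sets are at distance at most two, the difference of their vertices is, up to sign,
`e_i` or `e_i + e_j` or `e_i - e_j`. -/
theorem direction {n : ℕ} (S T : Finset (Fin n)) (hST : S ≠ T) (h : (symmDiff S T).card ≤ 2) :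
    (∃ i : Fin n, Submodule.span ℝ {vertex T - vertex S} = Submodule.span ℝ {vertex {i}}) ∨
    (∃ i j : Fin n, i ≠ j ∧
      (Submodule.span ℝ {vertex T - vertex S} = Submodule.span ℝ {vertex {i} + vertex {j}} ∨
        Submodule.span ℝ {vertex T - vertex S}
          = Submodule.span ℝ {vertex {i} - vertex {j}})) := by
  classical
  have hpos : 0 < (symmDiff S T).card := by
    rw [Finset.card_pos, Finset.nonempty_iff_ne_empty]
    intro h0
    exact hST (symmDiff_eq_bot.1 h0)
  have hcases : (symmDiff S T).card = 1 ∨ (symmDiff S T).card = 2 := by omega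
  have hv : ∀ k, (vertex T - vertex S) k
      = if k ∈ symmDiff S T then (if k ∈ S then -1 else 1) else 0 := by
    intro k
    by_cases h1 : k ∈ S <;> by_cases h2 : k ∈ T <;>
      simp [vertex, Finset.mem_symmDiff, h1, h2]
  rcases hcases with h1 | h2
  · left
    obtain ⟨i, hi⟩ := Finset.card_eq_one.1 h1
    refine ⟨i, ?_⟩
    by_cases hiS : i ∈ S
    · have : vertex T - vertex S = -vertex {i} := by
        funext k
        rw [hv, hi]
        by_cases hk : k = i
        · subst hk; simp [vertex, hiS]
        · simp [vertex, hk]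
      rw [this, span_neg']
    · have : vertex T - vertex S = vertex {i} := by
        funext k
        rw [hv, hi]
        by_cases hk : k = i
        · subst hk; simp [vertex, hiS]
        · simp [vertex, hk]
      rw [this]
  · right
    obtain ⟨i, j, hij, hij2⟩ := Finset.card_eq_two.1 h2
    have key : ∀ k, (vertex T - vertex S) k
        = (if k = i then (if i ∈ S then -1 else 1) else 0)
          + (if k = j then (if j ∈ S then -1 else 1) else 0) := by
      intro k
      rw [hv, hij2]
      by_cases hk : k = i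
      · subst hk; simp [hij]
      · by_cases hk' : k = j
        · subst hk'; simp [hk]
        · simp [hk, hk']
    by_cases hiS : i ∈ S <;> by_cases hjS : j ∈ S
    · refine ⟨i, j, hij, Or.inl ?_⟩
      have : vertex T - vertex S = -(vertex {i} + vertex {j}) := by
        funext k
        rw [key]
        by_cases hk : k = i
        · subst hk; simp [vertex, hiS, hij]
        · by_cases hk' : k = j
          · subst hk'; simp [vertex, hjS, hk]
          · simp [vertex, hk, hk']
      rw [this, span_neg']
    · refine ⟨i, j, hij, Or.inr ?_⟩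
      have : vertex T - vertex S = -(vertex {i} - vertex {j}) := by
        funext k
        rw [key]
        by_cases hk : k = i
        · subst hk; simp [vertex, hiS, hij]
        · by_cases hk' : k = j
          · subst hk'; simp [vertex, hjS, hk]
          · simp [vertex, hk, hk']
      rw [this, span_neg']
    · refine ⟨i, j, hij, Or.inr ?_⟩
      have : vertex T - vertex S = vertex {i} - vertex {j} := by
        funext k
        rw [key]
        by_cases hk : k = i
        · subst hk; simp [vertex, hiS, hij]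
        · by_cases hk' : k = j
          · subst hk'; simp [vertex, hjS, hk]
          · simp [vertex, hk, hk']
      rw [this]
    · refine ⟨i, j, hij, Or.inl ?_⟩
      have : vertex T - vertex S = vertex {i} + vertex {j} := by
        funext k
        rw [key]
        by_cases hk : k = i
        · subst hk; simp [vertex, hiS, hij]
        · by_cases hk' : k = j
          · subst hk'; simp [vertex, hjS, hk]
          · simp [vertex, hk, hk']
      rw [this]

theorem rank_one_factor {K : Type*} [Field K] {n : ℕ} (C : Matrix (Fin n) (Fin n) K)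
    (h : C.rank ≤ 1) : ∃ a b : Fin n → K, ∀ i j, C i j = a i * b j := by
  classical
  rw [Matrix.rank, finrank_le_one_iff] at h
  obtain ⟨v, hv⟩ := h
  have hcol : ∀ j, ∃ c : K, ∀ i, C i j = c * (v : Fin n → K) i := by
    intro j
    obtain ⟨c, hc⟩ := hv ⟨C.mulVecLin (Pi.single j 1), LinearMap.mem_range_self _ _⟩
    refine ⟨c, fun i => ?_⟩
    have := congrFun (congrArg Subtype.val hc) i
    simp only [Submodule.coe_smul, Pi.smul_apply, smul_eq_mul, Matrix.mulVecLin_apply,
      Matrix.mulVec_single_one, Matrix.col_apply] at this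
    exact this.symm
  choose c hc using hcol
  exact ⟨(v : Fin n → K), c, fun i j => by rw [hc, mul_comm]⟩

/-- **Valuated Delta-matroids from Hermitian plus omega times rank-one matrices.**
Let `K` be a field of characteristic two with a real-valued valuation `ν`, `σ` a field
automorphism of `K` with `σ ∘ σ = id` and `ν ∘ σ = ν`, and `ω ∈ K` with `σ ω = ω + 1`.  If `B` and
`C` are Hermitian and `C` has rank at most one, then the function sending `S` to the valuation of
the principal minor of `B + ω C` with rows and columns `S` is a valuated Delta-matroid. -/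
theorem result {K : Type*} [Field K] [CharP K 2] (ν : AddValuation K (WithTop ℝ)) (σ : K ≃+* K)
    (hσ : ∀ a, σ (σ a) = a) (hν : ∀ a, ν (σ a) = ν a) (ω : K) (hω : σ ω = ω + 1) {n : ℕ}
    (B C : Matrix (Fin n) (Fin n) K) (hB : ∀ i j, B j i = σ (B i j))
    (hC : ∀ i j, C j i = σ (C i j)) (hrank : C.rank ≤ 1) :
    IsValuatedDeltaMatroid (fun S : Finset (Fin n) =>
      ν ((B + ω • C).submatrix (fun i : S => (i : Fin n)) (fun i : S => (i : Fin n))).det) := by
  intro Q hQ h1
  obtain ⟨u, m, S, T, hST, hS, hT, hlt, hspan⟩ := geom _ Q hQ h1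
  obtain ⟨a, b, hab⟩ := rank_one_factor C hrank
  have hA : ∀ i j, (B + ω • C) i j + σ ((B + ω • C) j i) = a i * b j := by
    intro i j
    rw [← hab]
    simp only [Matrix.add_apply, Matrix.smul_apply, smul_eq_mul, map_add, map_mul, hω]
    rw [← hB j i, ← hC j i]
    have h2 : B i j + B i j = 0 := CharTwo.add_self_eq_zero _
    have h3 : ω * C i j + ω * C i j = 0 := CharTwo.add_self_eq_zero _
    linear_combination h2 + h3
  have hcard := main_alg ν σ hσ hν (B + ω • C) a b hA u m S T
    (by rw [det_mix]; exact hS) (by rw [det_mix]; exact hT)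
    (fun W h3 h4 => by rw [det_mix]; exact hlt W h3 h4)
  rw [hspan]
  exact direction S T hST hcard

end Pool.Agent.Results.MP_943595_co.HermitianOmega
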